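import Mathlib
import Pool.Agent.Helper9.NS
import Pool.Agent.Helper51.EW.Defs
import Pool.Agent.Helper83.EW.Lines
import Pool.Agent.Helper83.VF.Fields
import Pool.Agent.Helper83.VF.Kill
import Pool.Agent.Helper83.VF.Swap

/-!
# Elliptic K3 surfaces: the local coordinates

The surface is `y ^ 2 = x ^ 3 - 3 α (t) x + 2 β (t)` over the points `e0 + t e1` of the projective
line; the fibre over `e1` is singular.
-/

set_option linter.unusedSectionVars false

namespace Pool.Agent.Helper51.VK

open VC VF Function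
open Pool.Agent.Helper51.EW

universe u

/-- Coordinates on the projective line adapted to the surface. -/
structure Core {k : Type u} [Field k] (W : Wei k) where
  e0 : Fin 2 → k
  e1 : Fin 2 → k
  det : e0 0 * e1 1 - e0 1 * e1 0 ≠ 0
  /-- `-3 α` is the coefficient of `x` -/
  al : Polynomial k
  /-- `2 β` is the constant coefficient -/
  be : Polynomial k
  /-- the first half of the discriminant -/
  P : Polynomial k
  /-- the second half of the discriminant -/
  Q : Polynomial k
  hA : ∀ (K : Type u) [Field K] [Algebra k K] (T : K),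
    MvPolynomial.aeval (fun i => algebraMap k K (e0 i) + T * algebraMap k K (e1 i)) W.A =
      -3 * Polynomial.aeval T al
  hB : ∀ (K : Type u) [Field K] [Algebra k K] (T : K),
    MvPolynomial.aeval (fun i => algebraMap k K (e0 i) + T * algebraMap k K (e1 i)) W.B =
      2 * Polynomial.aeval T be
  hPQ : be ^ 2 - al ^ 3 = P * Q
  hP0 : P ≠ 0
  hQ0 : Q ≠ 0
  dal : al.natDegree ≤ 8
  dbe : be.natDegree ≤ 12
  dP : P.natDegree ≤ 12
  dQ : Q.natDegree ≤ 12
  sing : 4 * MvPolynomial.aeval e1 W.A ^ 3 + 27 * MvPolynomial.aeval e1 W.B ^ 2 = 0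

section defs

variable {k : Type u} [Field k] {W : Wei k} (D : Core W) {K : Type u} [Field K] [Algebra k K]

/-- The point `e0 + T e1` of the projective line. -/
def bp (T : K) : Fin 2 → K :=
  fun i => algebraMap k K (D.e0 i) + T * algebraMap k K (D.e1 i)

/-- The cubic polynomial `x ^ 3 - 3 α (T) x + 2 β (T)`. -/
noncomputable def cub (T x : K) : K :=
  x ^ 3 - 3 * Polynomial.aeval T D.al * x + 2 * Polynomial.aeval T D.be

/-- The discriminant `β ^ 2 - α ^ 3`. -/
noncomputable def del (T : K) : K := Polynomial.aeval T D.be ^ 2 - Polynomial.aeval T D.al ^ 3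

/-- The point `(x, y)` of the fibre over `T`. -/
noncomputable def ptt (T x y : K) : WPt W K := apt W (bp D T) x y

lemma bp_ne (T : K) : bp D T ≠ 0 := by
  intro h
  have h0 : algebraMap k K (D.e0 0) + T * algebraMap k K (D.e1 0) = 0 := congrFun h 0
  have h1 : algebraMap k K (D.e0 1) + T * algebraMap k K (D.e1 1) = 0 := congrFun h 1
  apply D.det
  apply (algebraMap k K).injective
  rw [map_sub, map_mul, map_mul, map_zero]
  linear_combination algebraMap k K (D.e1 1) * h0 - algebraMap k K (D.e1 0) * h1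

lemma cub_eqn {T x y : K} (h : y ^ 2 = cub D T x) :
    y ^ 2 = x ^ 3 + MvPolynomial.aeval (bp D T) W.A * x + MvPolynomial.aeval (bp D T) W.B := by
  have e1 : MvPolynomial.aeval (bp D T) W.A = -3 * Polynomial.aeval T D.al := D.hA K T
  have e2 : MvPolynomial.aeval (bp D T) W.B = 2 * Polynomial.aeval T D.be := D.hB K T
  rw [h, e1, e2]
  unfold cub
  ring

lemma del_eq (T : K) : del D T = Polynomial.aeval T D.P * Polynomial.aeval T D.Q := by
  unfold del
  rw [← map_mul, ← D.hPQ]
  simp

lemma neg_ptt {T x y : K} (h : y ^ 2 = cub D T x) : neg (ptt D T x y) = ptt D T x (-y) :=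
  neg_apt (bp_ne D T) (cub_eqn D h)

end defs

/-! ### The functions -/

section functions

variable {k : Type u} [Field k] [IsAlgClosed k] [CharZero k] {W : Wei k}

/-- The functions considered on pairs of points: they vanish on the cycles rationally equivalent to
zero, are odd in the first variable and alternating. -/
structure Alt (W : Wei k) (ψ : (W.surface.prod W.surface).Pt → k) : Prop where
  kills : Kills (W.surface.prod W.surface) ψ
  odd : ∀ p q, ψ (neg p, q) = -ψ (p, q)
  alt : ∀ p q, ψ (q, p) = -ψ (p, q)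

variable {ψ : (W.surface.prod W.surface).Pt → k}

lemma Alt.odd' (h : Alt W ψ) (p q : W.surface.Pt) : ψ (p, neg q) = -ψ (p, q) := by
  rw [h.alt (neg q) p, h.odd, h.alt q p]

/-- A point at which every function considered vanishes, in each variable. -/
def Null (ψ : (W.surface.prod W.surface).Pt → k) (p : W.surface.Pt) : Prop :=
  ∀ q, ψ (p, q) = 0 ∧ ψ (q, p) = 0

lemma Alt.null_of (h : Alt W ψ) {p : W.surface.Pt} (hp : ∀ q, ψ (p, q) = 0) : Null ψ p :=
  fun q => ⟨hp q, by rw [h.alt p q, hp q, neg_zero]⟩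

lemma Alt.null_neg (h : Alt W ψ) {p : W.surface.Pt} (hp : neg p = p) : Null ψ p := by
  apply h.null_of
  intro q
  have h1 := h.odd p q
  rw [hp] at h1
  exact self_eq_neg.mp h1

/-- The value of the function at the pair of points `(t; x₁, y)`, `(s; x₂ / r ^ 2, y / r ^ 3)`. -/
noncomputable def Phi (D : Core W) (ψ : (W.surface.prod W.surface).Pt → k) (t s r x₁ x₂ y : k) : k :=
  ψ (ptt D t x₁ y, ptt D s (x₂ / r ^ 2) (y / r ^ 3))

end functions

/-! ### The Inose pencil -/

section inose

variable {k : Type u} [Field k] {W : Wei k} (D : Core W) {K : Type u} [Field K] [Algebra k K]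

/-- `D = M ^ 2 + 3 d ^ 2 = 4 p₁ p₂`, where `M = 2 r ^ 2 ξ - α - r ^ 4 α'` and
`d = α - r ^ 4 α'`. -/
noncomputable def den (T S r ξ : K) : K :=
  (2 * r ^ 2 * ξ - (Polynomial.aeval T D.al + r ^ 4 * Polynomial.aeval S D.al)) ^ 2 +
    3 * (Polynomial.aeval T D.al - r ^ 4 * Polynomial.aeval S D.al) ^ 2

/-- The first coordinate `x₁` of the point of the curve `C_r` with Inose coordinates `ξ, w`. -/
noncomputable def xa (T S r ξ w : K) : K :=
  (r ^ 3 * w * ((2 * r ^ 2 * ξ - (Polynomial.aeval T D.al + r ^ 4 * Polynomial.aeval S D.al)) +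
      3 * (Polynomial.aeval T D.al - r ^ 4 * Polynomial.aeval S D.al)) +
    2 * (Polynomial.aeval T D.be - r ^ 6 * Polynomial.aeval S D.be) *
      ((Polynomial.aeval T D.al - r ^ 4 * Polynomial.aeval S D.al) -
        (2 * r ^ 2 * ξ - (Polynomial.aeval T D.al + r ^ 4 * Polynomial.aeval S D.al)))) /
    den D T S r ξ

/-- The second coordinate `x₂` of the point of the curve `C_r` with Inose coordinates `ξ, w`. -/
noncomputable def xb (T S r ξ w : K) : K :=
  (r ^ 3 * w * ((2 * r ^ 2 * ξ - (Polynomial.aeval T D.al + r ^ 4 * Polynomial.aeval S D.al)) -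
      3 * (Polynomial.aeval T D.al - r ^ 4 * Polynomial.aeval S D.al)) +
    2 * (Polynomial.aeval T D.be - r ^ 6 * Polynomial.aeval S D.be) *
      ((Polynomial.aeval T D.al - r ^ 4 * Polynomial.aeval S D.al) +
        (2 * r ^ 2 * ξ - (Polynomial.aeval T D.al + r ^ 4 * Polynomial.aeval S D.al)))) /
    den D T S r ξ

/-- The equation of the Inose pencil: `3 U w ^ 2 = 4 (U (ξ ^ 3 - 3 α α' ξ + 2 β β') - δ - U ^ 2 δ')`. -/
def Jac (T S U ξ w : K) : Prop :=
  3 * U * w ^ 2 = 4 * (U * (ξ ^ 3 - 3 * (Polynomial.aeval T D.al * Polynomial.aeval S D.al) * ξ +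
    2 * (Polynomial.aeval T D.be * Polynomial.aeval S D.be)) - del D T - U ^ 2 * del D S)

/-- `U (ξ ^ 3 - 3 α α' ξ) + α ^ 3 + U ^ 2 α' ^ 3 = p₀ p₁ p₂`. -/
noncomputable def nn (T S U ξ : K) : K :=
  U * (ξ ^ 3 - 3 * (Polynomial.aeval T D.al * Polynomial.aeval S D.al) * ξ) +
    Polynomial.aeval T D.al ^ 3 + U ^ 2 * Polynomial.aeval S D.al ^ 3

end inose

section hfun

variable {k : Type u} [Field k] [IsAlgClosed k] [CharZero k] {W : Wei k}

/-- A square root. -/
noncomputable def sqt (x : k) : k := (IsAlgClosed.exists_pow_nat_eq x (n := 2) two_pos).choose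

lemma sqt_sq (x : k) : sqt x ^ 2 = x :=
  (IsAlgClosed.exists_pow_nat_eq x (n := 2) two_pos).choose_spec

/-- A sixth root. -/
noncomputable def rt6 (x : k) : k := (IsAlgClosed.exists_pow_nat_eq x (n := 6) (by norm_num)).choose

lemma rt6_pow (x : k) : rt6 x ^ 6 = x :=
  (IsAlgClosed.exists_pow_nat_eq x (n := 6) (by norm_num)).choose_spec

/-- The function `h (t, s, r, ξ, w)`, for a given sixth root `r` of `U`. -/
noncomputable def HH (D : Core W) (ψ : (W.surface.prod W.surface).Pt → k) (t s r ξ w : k) : k :=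
  Phi D ψ t s r (xa D t s r ξ w) (xb D t s r ξ w) (sqt (cub D t (xa D t s r ξ w)))

/-- The function `h (t, s, U, ξ, w)`. -/
noncomputable def hh (D : Core W) (ψ : (W.surface.prod W.surface).Pt → k) (t s U ξ w : k) : k :=
  HH D ψ t s (rt6 U) ξ w

end hfun

end Pool.Agent.Helper51.VK
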