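import Mathlib
import Pool.Agent.Helper51.VK.Vals

/-!
# Block VK-LINE: the lines `x₁ - x₂ = n`

For fixed `t, s, r` put `α = α (t)`, `β = β (t)`, `a = r ^ 4 α (s)`, `b = r ^ 6 β (s)`,
`S = α + a`, `d = α - a`, `ρ = β - b`. The curve `C_r` of the pairs `(x₁, x₂)` with
`x₁ ^ 3 - 3 α x₁ + 2 β = x₂ ^ 3 - 3 a x₂ + 2 b` is, with `n = x₁ - x₂`, `σ = x₁ + x₂`,
`3 n σ ^ 2 - 6 d σ + n ^ 3 - 6 S n + 8 ρ = 0`. For fixed `n ≠ 0` there are two points, and the sum
of the values of `Phi` is zero.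

Proof: path with parameter `θ = 1 / n`, over a function field `K` containing `θ`, `E` with
`E ^ 2 = d ^ 2 θ ^ 4 - (1 - 6 S θ ^ 2 + 8 ρ θ ^ 3) / 3`, and square roots `y, y'` of
`cub D t x₁`, `cub D t x₁'`, where
`x₁ = (d θ ^ 2 + E + 1) / (2 θ)`, `x₂ = (d θ ^ 2 + E - 1) / (2 θ)`,
`x₁' = (d θ ^ 2 - E + 1) / (2 θ)`, `x₂' = (d θ ^ 2 - E - 1) / (2 θ)`.
Over `θ = 0` the value `e` of `E` satisfies `3 e ^ 2 = -1`, so `± e + 1 ≠ 0` and `x₁, x₁'` have
poles: all values are null, the sum is `0`. Over `θ = 1 / n` one gets the two given points, in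
one of the two orders.
Use `path` for `kills_sum h.kills h.kills` on `(W × W) × (W × W)`.
-/

set_option linter.unusedSectionVars false

namespace Pool.Agent.Helper51.VK

open VC VF Function
open Pool.Agent.Helper51.EW

universe u

variable {k : Type u} [Field k] [IsAlgClosed k] [CharZero k] {W : Wei k} (D : Core W)
  {ψ : (W.surface.prod W.surface).Pt → k}

/-- `Phi` does not depend on the sign of `y`. -/
theorem Phi_sign (h : Alt W ψ) {t s r x₁ x₂ y y' : k} (hr : r ≠ 0) (h1 : y ^ 2 = cub D t x₁)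
    (h2 : cub D t x₁ = r ^ 6 * cub D s (x₂ / r ^ 2)) (h' : y' ^ 2 = cub D t x₁) :
    Phi D ψ t s r x₁ x₂ y' = Phi D ψ t s r x₁ x₂ y := by
  have h3 : (y' - y) * (y' + y) = 0 := by linear_combination h' - h1
  rcases mul_eq_zero.mp h3 with h3 | h3
  · rw [sub_eq_zero.mp h3]
  · have h4 : y' = -y := eq_neg_of_add_eq_zero_left h3
    have h5 : (y / r ^ 3) ^ 2 = cub D s (x₂ / r ^ 2) := by
      rw [div_pow, h1, h2]
      field_simp
    unfold Phi
    rw [h4, neg_div, ← neg_ptt D h1, ← neg_ptt D h5, h.odd, h.odd', neg_neg]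

/-- the scaled cubic of the second fibre -/
lemma line_scale {K : Type u} [Field K] [Algebra k K] {S R x : K} (hR : R ≠ 0) :
    R ^ 6 * cub D S (x / R ^ 2) = x ^ 3 - 3 * (R ^ 4 * Polynomial.aeval S D.al) * x +
      2 * (R ^ 6 * Polynomial.aeval S D.be) := by
  unfold cub
  field_simp

/-- the curve in the coordinates `x₁ - x₂`, `x₁ + x₂` -/
lemma line_curve {K : Type u} [Field K] {x₁ x₂ al a be b : K}
    (h : 3 * (x₁ - x₂) * (x₁ + x₂) ^ 2 - 6 * (al - a) * (x₁ + x₂) + (x₁ - x₂) ^ 3 -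
      6 * (al + a) * (x₁ - x₂) + 8 * (be - b) = 0) (h4 : (4 : K) ≠ 0) :
    x₁ ^ 3 - 3 * al * x₁ + 2 * be = x₂ ^ 3 - 3 * a * x₂ + 2 * b := by
  have h1 : (4 : K) * (x₁ ^ 3 - 3 * al * x₁ + 2 * be - (x₂ ^ 3 - 3 * a * x₂ + 2 * b)) = 0 := by
    linear_combination h
  exact sub_eq_zero.mp ((mul_eq_zero.mp h1).resolve_left h4)

lemma line_curve' {K : Type u} [Field K] {x₁ x₂ al a be b : K}
    (h : x₁ ^ 3 - 3 * al * x₁ + 2 * be = x₂ ^ 3 - 3 * a * x₂ + 2 * b) :
    3 * (x₁ - x₂) * (x₁ + x₂) ^ 2 - 6 * (al - a) * (x₁ + x₂) + (x₁ - x₂) ^ 3 -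
      6 * (al + a) * (x₁ - x₂) + 8 * (be - b) = 0 := by
  linear_combination 4 * h

/-- the function field of the path -/
lemma line_field (t al a be b : k) : ∃ (K : Type u) (_ : Field K) (_ : Algebra k K)
    (θ E y y' : K), IsFunctionField k K ∧ Transcendental k θ ∧
      3 * E ^ 2 = 3 * algebraMap k K (al - a) ^ 2 * θ ^ 4 -
        (1 - 6 * algebraMap k K (al + a) * θ ^ 2 + 8 * algebraMap k K (be - b) * θ ^ 3) ∧
      y ^ 2 = cub D (algebraMap k K t) ((algebraMap k K (al - a) * θ ^ 2 + E + 1) / (2 * θ)) ∧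
      y' ^ 2 = cub D (algebraMap k K t) ((algebraMap k K (al - a) * θ ^ 2 - E + 1) / (2 * θ)) := by
  obtain ⟨Δ, hΔ⟩ : ∃ Δ : Polynomial k, Δ = Polynomial.C ((al - a) ^ 2) * Polynomial.X ^ 4 -
    Polynomial.C (3⁻¹) * (1 - Polynomial.C (6 * (al + a)) * Polynomial.X ^ 2 +
      Polynomial.C (8 * (be - b)) * Polynomial.X ^ 3) := ⟨_, rfl⟩
  obtain ⟨K₁, _, _, τ, E, hK₁, hτ, hE⟩ := exists_poly_roots (k := k) two_ne_zero
    (fun _ : Fin 1 => Δ)
  obtain ⟨K, _, _, _, _, Y, hK, hY⟩ := VF.exists_roots hK₁ (m := 2) two_ne_zero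
    (![cub D (algebraMap k K₁ t) ((algebraMap k K₁ (al - a) * τ ^ 2 + E 0 + 1) / (2 * τ)),
      cub D (algebraMap k K₁ t) ((algebraMap k K₁ (al - a) * τ ^ 2 - E 0 + 1) / (2 * τ))])
  have e1 : ∀ z : k, algebraMap K₁ K (algebraMap k K₁ z) = algebraMap k K z :=
    fun z => (IsScalarTower.algebraMap_apply k K₁ K z).symm
  have e2 : ∀ z : K₁, algebraMap K₁ K (cub D (algebraMap k K₁ t) z) =
      cub D (algebraMap k K t) (algebraMap K₁ K z) := by
    intro z
    have e3 : ∀ p : Polynomial k, algebraMap K₁ K (Polynomial.aeval (algebraMap k K₁ t) p) =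
        Polynomial.aeval (algebraMap k K t) p := by
      intro p
      rw [← Polynomial.aeval_algebraMap_apply, e1]
    unfold cub
    simp only [map_sub, map_mul, map_add, map_pow, map_ofNat, e3]
  refine ⟨K, inferInstance, inferInstance, algebraMap K₁ K τ, algebraMap K₁ K (E 0), Y 0, Y 1, hK,
    (transcendental_algebraMap_iff (algebraMap K₁ K).injective).mpr hτ, ?_, ?_, ?_⟩
  · have h3 : (3 : K) * algebraMap k K 3⁻¹ = 1 := by
      have : algebraMap k K (3 * 3⁻¹) = 1 := by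
        rw [mul_inv_cancel₀ (three_ne_zero : (3 : k) ≠ 0), map_one]
      rwa [map_mul, map_ofNat] at this
    have h4 := congrArg (algebraMap K₁ K) (hE 0)
    rw [hΔ] at h4
    simp only [map_sub, map_mul, map_add, map_pow, Polynomial.aeval_X, Polynomial.aeval_C, e1,
      map_ofNat, map_one] at h4
    rw [h4]
    simp only [map_sub, map_add]
    linear_combination (-(1 - 6 * (algebraMap k K al + algebraMap k K a) *
      algebraMap K₁ K τ ^ 2 + 8 * (algebraMap k K be - algebraMap k K b) *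
      algebraMap K₁ K τ ^ 3)) * h3
  · have h4 := hY 0
    rw [Matrix.cons_val_zero, e2] at h4
    rw [h4]
    simp only [map_sub, map_mul, map_add, map_pow, map_div₀, e1, map_ofNat, map_one]
  · have h4 := hY 1
    rw [Matrix.cons_val_one, Matrix.cons_val_fin_one, e2] at h4
    rw [h4]
    simp only [map_sub, map_mul, map_add, map_pow, map_div₀, e1, map_ofNat, map_one]

lemma line_pole {K : Type u} [Field K] [Algebra k K] (hK : IsFunctionField k K) {v : Place k K}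
    {θ E : K} {dd e : k} (hθ0 : θ ≠ 0) (h2 : (2 : K) ≠ 0) (hθ : IsRes v θ 0) (hE : IsRes v E e)
    (he : e + 1 ≠ 0) : (algebraMap k K dd * θ ^ 2 + E + 1) / (2 * θ) ∉ v.ring := by
  intro hmem
  obtain ⟨c, hc⟩ := exists_res hK hmem
  have h5 : IsRes v ((algebraMap k K dd * θ ^ 2 + E + 1) / (2 * θ) * (algebraMap k K 2 * θ))
      (c * (2 * 0)) := hc.mul ((isRes_const _).mul hθ)
  have h6 : IsRes v (algebraMap k K dd * θ ^ 2 + E + 1) (dd * 0 ^ 2 + e + 1) :=
    (((isRes_const _).mul (hθ.pow 2)).add hE).add isRes_one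
  have h7 : (algebraMap k K dd * θ ^ 2 + E + 1) / (2 * θ) * (algebraMap k K 2 * θ) =
      algebraMap k K dd * θ ^ 2 + E + 1 := by
    rw [map_ofNat]
    exact div_mul_cancel₀ _ (mul_ne_zero h2 hθ0)
  rw [h7] at h5
  have h8 := h5.unique h6
  apply he
  linear_combination -h8

/-- the data of one of the two points on the path -/
lemma line_pt (h : Alt W ψ) {K : Type u} [Field K] [Algebra k K] (hK : IsFunctionField k K)
    {t s r al be a b : k} (hr : r ≠ 0) (hal : al = Polynomial.aeval t D.al)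
    (hbe : be = Polynomial.aeval t D.be) (ha : a = r ^ 4 * Polynomial.aeval s D.al)
    (hb : b = r ^ 6 * Polynomial.aeval s D.be) {θ F Z : K} (hθ0 : θ ≠ 0)
    (hF : 3 * F ^ 2 = 3 * algebraMap k K (al - a) ^ 2 * θ ^ 4 -
        (1 - 6 * algebraMap k K (al + a) * θ ^ 2 + 8 * algebraMap k K (be - b) * θ ^ 3))
    (hZ : Z ^ 2 = cub D (algebraMap k K t)
      ((algebraMap k K (al - a) * θ ^ 2 + F + 1) / (2 * θ))) (v : Place k K) {e : k}
    (he : IsRes v F e) :
    (IsRes v θ 0 → 3 * e ^ 2 = -1 → ψ (W.surface.eval hK (ptt D (algebraMap k K t)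
      ((algebraMap k K (al - a) * θ ^ 2 + F + 1) / (2 * θ)) Z) v, W.surface.eval hK
        (ptt D (algebraMap k K s) ((algebraMap k K (al - a) * θ ^ 2 + F - 1) / (2 * θ) /
          algebraMap k K r ^ 2) (Z / algebraMap k K r ^ 3)) v) = 0) ∧
    (∀ n : k, n ≠ 0 → IsRes v θ n⁻¹ → ∃ z : k, z ^ 2 =
        cub D t (((al - a) * n⁻¹ ^ 2 + e + 1) * (2⁻¹ * n)) ∧
      ψ (W.surface.eval hK (ptt D (algebraMap k K t)
      ((algebraMap k K (al - a) * θ ^ 2 + F + 1) / (2 * θ)) Z) v, W.surface.eval hK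
        (ptt D (algebraMap k K s) ((algebraMap k K (al - a) * θ ^ 2 + F - 1) / (2 * θ) /
          algebraMap k K r ^ 2) (Z / algebraMap k K r ^ 3)) v) =
      Phi D ψ t s r (((al - a) * n⁻¹ ^ 2 + e + 1) * (2⁻¹ * n))
        (((al - a) * n⁻¹ ^ 2 + e - 1) * (2⁻¹ * n)) z) := by
  have hc0 : CharZero K := charZero_of_injective_algebraMap (algebraMap k K).injective
  have h2k : (2 : k) ≠ 0 := two_ne_zero
  have h2K : (2 : K) ≠ 0 := two_ne_zero
  have h4K : (4 : K) ≠ 0 := by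
    have : (4 : K) = 2 * 2 := by norm_num
    rw [this]
    exact mul_ne_zero h2K h2K
  have hrK : algebraMap k K r ≠ 0 := fun h0 => hr ((map_eq_zero _).mp h0)
  have hcubK : ∀ z : K, cub D (algebraMap k K t) z =
      z ^ 3 - 3 * algebraMap k K al * z + 2 * algebraMap k K be := by
    intro z
    have e3 : ∀ p : Polynomial k, Polynomial.aeval (algebraMap k K t) p =
        algebraMap k K (Polynomial.aeval t p) :=
      fun p => Polynomial.aeval_algebraMap_apply K t p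
    unfold cub
    rw [e3, e3, ← hal, ← hbe]
  have hcubK' : ∀ z : K, algebraMap k K r ^ 6 * cub D (algebraMap k K s)
      (z / algebraMap k K r ^ 2) = z ^ 3 - 3 * algebraMap k K a * z + 2 * algebraMap k K b := by
    intro z
    have e3 : ∀ p : Polynomial k, Polynomial.aeval (algebraMap k K s) p =
        algebraMap k K (Polynomial.aeval s p) :=
      fun p => Polynomial.aeval_algebraMap_apply K s p
    rw [line_scale D hrK, e3, e3, ha, hb]
    simp only [map_mul, map_pow]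
  obtain ⟨X₁, hX₁⟩ : ∃ X : K, X = (algebraMap k K (al - a) * θ ^ 2 + F + 1) / (2 * θ) := ⟨_, rfl⟩
  obtain ⟨X₂, hX₂⟩ : ∃ X : K, X = (algebraMap k K (al - a) * θ ^ 2 + F - 1) / (2 * θ) := ⟨_, rfl⟩
  rw [← hX₁, ← hX₂]
  rw [← hX₁] at hZ
  have hZ' : (Z / algebraMap k K r ^ 3) ^ 2 =
      cub D (algebraMap k K s) (X₂ / algebraMap k K r ^ 2) := by
    have h5 : algebraMap k K r ^ 6 * (Z / algebraMap k K r ^ 3) ^ 2 =
        algebraMap k K r ^ 6 * cub D (algebraMap k K s) (X₂ / algebraMap k K r ^ 2) := by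
      rw [hcubK']
      have h6 : algebraMap k K r ^ 6 * (Z / algebraMap k K r ^ 3) ^ 2 = Z ^ 2 := by
        field_simp
      rw [h6, hZ, hcubK]
      refine line_curve ?_ h4K
      have h7 : X₁ - X₂ = 1 / θ := by
        rw [hX₁, hX₂]
        field_simp
        ring
      have h8 : X₁ + X₂ = (algebraMap k K (al - a) * θ ^ 2 + F) / θ := by
        rw [hX₁, hX₂]
        field_simp
        ring
      rw [h7, h8]
      rw [map_sub, map_add, map_sub] at hF
      rw [map_sub]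
      field_simp
      linear_combination hF
    exact mul_left_cancel₀ (pow_ne_zero 6 hrK) h5
  constructor
  · intro hθ he2
    have hne : e + 1 ≠ 0 := by
      intro h0
      have h5 : e = -1 := by linear_combination h0
      rw [h5] at he2
      have h6 : (2 : k) * 2 = 0 := by linear_combination he2
      exact mul_ne_zero h2k h2k h6
    have h5 : X₁ ∉ v.ring := by
      rw [hX₁]
      exact line_pole hK hθ0 h2K hθ he hne
    exact (null_of_pole D h hK v hZ (isRes_const t) h5 _).1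
  · intro n hn hθ
    have h5 : IsRes v ((2 * θ)⁻¹) (2⁻¹ * n) := by
      have h6 : IsRes v (algebraMap k K 2 * θ) (2 * n⁻¹) := (isRes_const 2).mul hθ
      have h7 := IsRes.inv hK h6 (mul_ne_zero h2k (inv_ne_zero hn))
      rw [mul_inv 2 n⁻¹, inv_inv, map_ofNat] at h7
      exact h7
    have r₁ : IsRes v X₁ (((al - a) * n⁻¹ ^ 2 + e + 1) * (2⁻¹ * n)) := by
      rw [hX₁, div_eq_mul_inv]
      exact ((((isRes_const _).mul (hθ.pow 2)).add he).add isRes_one).mul h5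
    have r₂ : IsRes v X₂ (((al - a) * n⁻¹ ^ 2 + e - 1) * (2⁻¹ * n)) := by
      rw [hX₂, div_eq_mul_inv]
      exact ((((isRes_const _).mul (hθ.pow 2)).add he).sub isRes_one).mul h5
    have r₃ : IsRes v (Z ^ 2) (cub D t (((al - a) * n⁻¹ ^ 2 + e + 1) * (2⁻¹ * n))) := by
      rw [hZ]
      exact isRes_cub D (isRes_const t) r₁
    obtain ⟨z, hz, hz2⟩ := exists_res_of_pow hK two_ne_zero r₃
    refine ⟨z, hz2, ?_⟩
    have hri : ∀ m : ℕ, IsRes v ((algebraMap k K r ^ m)⁻¹) ((r ^ m)⁻¹) := fun m =>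
      IsRes.inv hK ((isRes_const r).pow m) (pow_ne_zero m hr)
    rw [eval_ptt D hK v hZ (isRes_const t) r₁ hz,
      eval_ptt D hK v hZ' (isRes_const s)
        (c := ((al - a) * n⁻¹ ^ 2 + e - 1) * (2⁻¹ * n) / r ^ 2) (d := z / r ^ 3)
        (by
          rw [div_eq_mul_inv, div_eq_mul_inv]
          exact r₂.mul (hri 2))
        (by
          rw [div_eq_mul_inv, div_eq_mul_inv]
          exact hz.mul (hri 3))]
    rfl

/-- Block VK-LINE. -/
theorem line (h : Alt W ψ) {t s r x₁ x₂ y x₁' x₂' y' : k} (hr : r ≠ 0)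
    (h1 : y ^ 2 = cub D t x₁) (h2 : cub D t x₁ = r ^ 6 * cub D s (x₂ / r ^ 2))
    (h1' : y' ^ 2 = cub D t x₁') (h2' : cub D t x₁' = r ^ 6 * cub D s (x₂' / r ^ 2))
    (hn : x₁ - x₂ = x₁' - x₂') (hn0 : x₁ - x₂ ≠ 0)
    (hs : (x₁ - x₂) * (x₁ + x₂ + x₁' + x₂') =
      2 * (Polynomial.aeval t D.al - r ^ 4 * Polynomial.aeval s D.al)) :
    Phi D ψ t s r x₁ x₂ y + Phi D ψ t s r x₁' x₂' y' = 0 := by
  obtain ⟨al, hal⟩ : ∃ al : k, al = Polynomial.aeval t D.al := ⟨_, rfl⟩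
  obtain ⟨be, hbe⟩ : ∃ be : k, be = Polynomial.aeval t D.be := ⟨_, rfl⟩
  obtain ⟨a, ha⟩ : ∃ a : k, a = r ^ 4 * Polynomial.aeval s D.al := ⟨_, rfl⟩
  obtain ⟨b, hb⟩ : ∃ b : k, b = r ^ 6 * Polynomial.aeval s D.be := ⟨_, rfl⟩
  have h2k : (2 : k) ≠ 0 := two_ne_zero
  have h3k : (3 : k) ≠ 0 := three_ne_zero
  obtain ⟨K, _, _, θ, E, Y, Y', hK, hθ, hE, hY, hY'⟩ := line_field D t al a be b
  have hθ0 : θ ≠ 0 := by
    rintro rfl
    exact hθ isAlgebraic_zero
  -- the curve over `k`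
  have hcub : ∀ z : k, cub D t z = z ^ 3 - 3 * al * z + 2 * be := by
    intro z
    rw [hal, hbe]
    rfl
  have hcub' : ∀ z : k, r ^ 6 * cub D s (z / r ^ 2) = z ^ 3 - 3 * a * z + 2 * b := by
    intro z
    rw [line_scale D hr, ha, hb]
  obtain ⟨n, hnn⟩ : ∃ n : k, n = x₁ - x₂ := ⟨_, rfl⟩
  have hn1 : n ≠ 0 := by rwa [hnn]
  have hE' : 3 * (-E) ^ 2 = 3 * algebraMap k K (al - a) ^ 2 * θ ^ 4 -
        (1 - 6 * algebraMap k K (al + a) * θ ^ 2 + 8 * algebraMap k K (be - b) * θ ^ 3) := by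
    rw [neg_sq]
    exact hE
  have hY'' : Y' ^ 2 = cub D (algebraMap k K t)
      ((algebraMap k K (al - a) * θ ^ 2 + -E + 1) / (2 * θ)) := by
    rw [hY', sub_eq_add_neg (algebraMap k K (al - a) * θ ^ 2) E]
  have hres : ∀ (v : Place k K) (c : k), IsRes v θ c → ∃ e : k, IsRes v E e ∧
      3 * e ^ 2 = 3 * (al - a) ^ 2 * c ^ 4 - (1 - 6 * (al + a) * c ^ 2 + 8 * (be - b) * c ^ 3) := by
    intro v c hc
    have h5 : IsRes v (E ^ 2) (3⁻¹ * (3 * (al - a) ^ 2 * c ^ 4 -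
        (1 - 6 * (al + a) * c ^ 2 + 8 * (be - b) * c ^ 3))) := by
      have h6 : E ^ 2 = algebraMap k K 3⁻¹ * (algebraMap k K 3 * algebraMap k K (al - a) ^ 2 *
          θ ^ 4 - (1 - algebraMap k K 6 * algebraMap k K (al + a) * θ ^ 2 +
            algebraMap k K 8 * algebraMap k K (be - b) * θ ^ 3)) := by
        rw [map_ofNat, map_ofNat, map_ofNat, ← hE, ← mul_assoc, ← map_ofNat (algebraMap k K) 3,
          ← map_mul, inv_mul_cancel₀ h3k, map_one, one_mul]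
      rw [h6]
      exact (isRes_const _).mul ((((isRes_const _).mul ((isRes_const _).pow 2)).mul
        (hc.pow 4)).sub ((isRes_one.sub (((isRes_const _).mul (isRes_const _)).mul
          (hc.pow 2))).add (((isRes_const _).mul (isRes_const _)).mul (hc.pow 3))))
    obtain ⟨e, he, he2⟩ := exists_res_of_pow hK two_ne_zero h5
    refine ⟨e, he, ?_⟩
    rw [he2, ← mul_assoc, mul_inv_cancel₀ h3k, one_mul]
  let c : ((W.surface.prod W.surface).prod (W.surface.prod W.surface)).Mor K :=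
    ((ptt D (algebraMap k K t) ((algebraMap k K (al - a) * θ ^ 2 + E + 1) / (2 * θ)) Y,
      ptt D (algebraMap k K s) ((algebraMap k K (al - a) * θ ^ 2 + E - 1) / (2 * θ) /
          algebraMap k K r ^ 2) (Y / algebraMap k K r ^ 3)),
     (ptt D (algebraMap k K t) ((algebraMap k K (al - a) * θ ^ 2 + -E + 1) / (2 * θ)) Y',
      ptt D (algebraMap k K s) ((algebraMap k K (al - a) * θ ^ 2 + -E - 1) / (2 * θ) /
          algebraMap k K r ^ 2) (Y' / algebraMap k K r ^ 3)))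
  symm
  refine path (Pool.Agent.Helper83.EW.kills_sum h.kills h.kills) hK c hθ (inv_ne_zero hn1).symm (fun v hv => ?_)
    (fun v hv => ?_)
  · obtain ⟨e, he, he2⟩ := hres v 0 hv
    have he3 : 3 * e ^ 2 = -1 := by linear_combination he2
    have p1 := (line_pt D h hK hr hal hbe ha hb hθ0 hE hY v he).1 hv he3
    have p2 := (line_pt D h hK hr hal hbe ha hb hθ0 hE' hY'' v he.neg).1 hv
      (by rw [neg_sq]; exact he3)
    change ψ _ + ψ _ = 0
    exact (congrArg₂ (· + ·) p1 p2).trans (add_zero 0)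
  · obtain ⟨e, he, he2⟩ := hres v n⁻¹ hv
    obtain ⟨z, hz, p1⟩ := (line_pt D h hK hr hal hbe ha hb hθ0 hE hY v he).2 n hn1 hv
    obtain ⟨z', hz', p2⟩ := (line_pt D h hK hr hal hbe ha hb hθ0 hE' hY'' v he.neg).2 n hn1 hv
    refine (congrArg₂ (· + ·) p1 p2).trans ?_
    have hi : n * n⁻¹ = 1 := mul_inv_cancel₀ hn1
    have h2i : (2 : k) * 2⁻¹ = 1 := mul_inv_cancel₀ h2k
    -- the two values of `x₁ + x₂`
    obtain ⟨σ, hσ⟩ : ∃ σ : k, σ = ((al - a) * n⁻¹ ^ 2 + e) * n := ⟨_, rfl⟩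
    obtain ⟨σ', hσ'⟩ : ∃ σ : k, σ = ((al - a) * n⁻¹ ^ 2 + -e) * n := ⟨_, rfl⟩
    have c1 : ((al - a) * n⁻¹ ^ 2 + e + 1) * (2⁻¹ * n) = 2⁻¹ * (σ + n) := by rw [hσ]; ring
    have c2 : ((al - a) * n⁻¹ ^ 2 + e - 1) * (2⁻¹ * n) = 2⁻¹ * (σ - n) := by rw [hσ]; ring
    have c3 : ((al - a) * n⁻¹ ^ 2 + -e + 1) * (2⁻¹ * n) = 2⁻¹ * (σ' + n) := by rw [hσ']; ring
    have c4 : ((al - a) * n⁻¹ ^ 2 + -e - 1) * (2⁻¹ * n) = 2⁻¹ * (σ' - n) := by rw [hσ']; ring
    rw [c1] at hz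
    rw [c3] at hz'
    rw [c1, c2, c3, c4]
    have hsum : n * (σ + σ') = 2 * (al - a) := by
      rw [hσ, hσ']
      linear_combination (2 * (al - a) * (n * n⁻¹ + 1)) * hi
    have hprod : 3 * n * (σ * σ') = n ^ 3 - 6 * (al + a) * n + 8 * (be - b) := by
      rw [hσ, hσ']
      have h5 : 3 * n * (((al - a) * n⁻¹ ^ 2 + e) * n * (((al - a) * n⁻¹ ^ 2 + -e) * n)) =
          3 * (al - a) ^ 2 * n⁻¹ ^ 4 * n ^ 3 - (3 * e ^ 2) * n ^ 3 := by ring
      rw [h5, he2]
      have h6 : n⁻¹ ^ 2 * n ^ 3 = n := by field_simp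
      have h7 : n⁻¹ ^ 3 * n ^ 3 = 1 := by rw [← mul_pow, inv_mul_cancel₀ hn1, one_pow]
      linear_combination -(6 * (al + a)) * h6 + (8 * (be - b)) * h7
    rw [← hal, ← ha, ← hnn] at hs
    have hC := line_curve' (x₁ := x₁) (x₂ := x₂) (al := al) (a := a) (be := be) (b := b)
      (by rw [← hcub, ← hcub', h2])
    rw [← hnn] at hC
    have hsum' : n * (σ + σ') = n * ((x₁ + x₂) + (x₁' + x₂')) := by
      rw [hsum, ← hs]
      ring
    have hsum'' : σ + σ' = (x₁ + x₂) + (x₁' + x₂') := mul_left_cancel₀ hn1 hsum'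
    have hprod'' : σ * σ' = (x₁ + x₂) * (x₁' + x₂') := by
      apply mul_left_cancel₀ (mul_ne_zero h3k hn1)
      rw [hprod]
      linear_combination hC - 3 * (x₁ + x₂) * hs
    have key : 2⁻¹ * (x₁ + x₂ + n) = x₁ := by
      rw [hnn]
      linear_combination x₁ * h2i
    have key2 : 2⁻¹ * (x₁ + x₂ - n) = x₂ := by
      rw [hnn]
      linear_combination x₂ * h2i
    have key3 : 2⁻¹ * (x₁' + x₂' + n) = x₁' := by
      rw [hnn, hn]
      linear_combination x₁' * h2i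
    have key4 : 2⁻¹ * (x₁' + x₂' - n) = x₂' := by
      rw [hnn, hn]
      linear_combination x₂' * h2i
    rcases Pool.Agent.Helper83.EW.pair_eq hsum'' hprod'' with ⟨g1, g2⟩ | ⟨g1, g2⟩
    · rw [g1, key] at hz
      rw [g2, key3] at hz'
      rw [g1, g2, key, key2, key3, key4]
      rw [Phi_sign D h hr h1 h2 hz, Phi_sign D h hr h1' h2' hz']
    · rw [g1, key3] at hz
      rw [g2, key] at hz'
      rw [g1, g2, key, key2, key3, key4]
      rw [Phi_sign D h hr h1 h2 hz', Phi_sign D h hr h1' h2' hz, add_comm]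

end Pool.Agent.Helper51.VK
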