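import Mathlib
import Pool.Agent.Helper51.VK.Alg
import Pool.Agent.Helper51.VK.Line

/-!
# Block VK-HEX: oddness, independence of the sixth root

Let `ω ^ 2 + ω + 1 = 0`. (ROT) `Phi (ω ^ 2 r; x₁, ω x₂; y) = Phi (r; x₁, x₂; y)` (the arguments of
`ψ` are literally equal) and `Phi (-r; x₁, x₂; y) = - Phi (r; x₁, x₂; y)`.
(HEX) `HH (r, ξ, w) + HH (ω r, ξ, - w) = 0` if `nn ≠ 0`: with `(x₁, x₂) = (xa, xb) (r, ξ, w)` and
`(x₁', x₂') = (xa, xb) (ω r, ξ, -w)` apply `line` for `ω ^ 2 r` to the points `(x₁, ω x₂)` and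
`(x₁', ω ^ 2 x₂')`. Identities, with `X = r ^ 2 ξ`, `Y = r ^ 3 w`, `p_i = X + ω ^ i α + ω ^ (-i) a`,
`κ = ω - ω ^ 2`, `g = 2 ρ + κ Y`, `g' = 2 ρ - κ Y`: `den = 4 p₁ p₂`, `g g' = 4 p₀ p₁ p₂` (this is
`Jac`), `x₁ - ω x₂ = ω ^ 2 g / (2 p₂) = x₁' - ω ^ 2 x₂'`, and
`(x₁ - ω x₂) (x₁ + ω x₂ + x₁' + ω ^ 2 x₂') = 2 (α - ω ^ 2 a)`.
Then `HH (r, w) = - HH (ω r, - w) = HH (ω ^ 2 r, w) = - HH (r, - w)`.
-/

set_option linter.unusedSectionVars false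

namespace Pool.Agent.Helper51.VK

open VC VF Function
open Pool.Agent.Helper51.EW

universe u

section pure

variable {F : Type*} [Field F] {ω : F}

lemma hex_D (hω : ω ^ 2 + ω + 1 = 0) (X α a : F) :
    pD X α a = 4 * (X + ω * α + ω ^ 2 * a) * (X + ω ^ 2 * α + ω * a) := by
  unfold pD
  linear_combination (-4 * ω ^ 2 * α * a - 4 * ω * α ^ 2 + 4 * ω * α * a - 4 * ω * a ^ 2 - 4 * X
    * α - 4 * X * a + 4 * α ^ 2 - 4 * α * a + 4 * a ^ 2) * hω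

lemma hex_D' (hω : ω ^ 2 + ω + 1 = 0) (X α a : F) :
    pD (ω ^ 2 * X) α (ω * a) = 4 * ω * (X + α + a) * (X + ω ^ 2 * α + ω * a) := by
  unfold pD
  linear_combination (4 * ω ^ 2 * X ^ 2 - 4 * ω * X ^ 2 - 4 * ω * X * α - 4 * ω * X * a - 4 * ω
    * α ^ 2 - 4 * ω * α * a + 4 * α ^ 2) * hω

lemma hex_AB (hω : ω ^ 2 + ω + 1 = 0) (X Y α a β b : F) :
    pA X Y α a β b - ω * pB X Y α a β b =
      2 * ω ^ 2 * (2 * (β - b) + (ω - ω ^ 2) * Y) * (X + ω * α + ω ^ 2 * a) := by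
  unfold pA pB
  linear_combination (2 * ω ^ 4 * Y * a + 2 * ω ^ 3 * Y * α - 4 * ω ^ 3 * Y * a + 2 * ω ^ 2 * X
    * Y - 4 * ω ^ 2 * Y * α + 2 * ω ^ 2 * Y * a - 4 * ω ^ 2 * a * β + 4 * ω ^ 2 * a * b - 4 * ω
    * X * Y + 2 * ω * Y * α + 2 * ω * Y * a - 4 * ω * α * β + 4 * ω * α * b + 4 * ω * a * β - 4
    * ω * a * b + 2 * X * Y - 4 * X * β + 4 * X * b + 2 * Y * α - 4 * Y * a + 4 * α * β - 4 * α
    * b) * hω

lemma hex_AB' (hω : ω ^ 2 + ω + 1 = 0) (X Y α a β b : F) :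
    pA (ω ^ 2 * X) (-Y) α (ω * a) β b - ω ^ 2 * pB (ω ^ 2 * X) (-Y) α (ω * a) β b =
      2 * (2 * (β - b) + (ω - ω ^ 2) * Y) * (X + α + a) := by
  unfold pA pB
  linear_combination (2 * ω ^ 2 * X * Y - 4 * ω ^ 2 * X * β + 4 * ω ^ 2 * X * b - 2 * ω * X * Y
    + 4 * ω * X * β - 4 * ω * X * b + 2 * ω * Y * a + 4 * ω * a * β - 4 * ω * a * b - 4 * X * β
    + 4 * X * b - 2 * Y * α - 4 * a * β + 4 * a * b) * hω

lemma hex_S (hω : ω ^ 2 + ω + 1 = 0) (X Y α a β b : F) :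
    (X + α + a) * ω * (pA X Y α a β b + ω * pB X Y α a β b) +
      (X + ω * α + ω ^ 2 * a) * (pA (ω ^ 2 * X) (-Y) α (ω * a) β b +
        ω ^ 2 * pB (ω ^ 2 * X) (-Y) α (ω * a) β b) =
      4 * ω ^ 2 * (X + ω ^ 2 * α + ω * a) * (α - ω ^ 2 * a) *
        (2 * (β - b) - (ω - ω ^ 2) * Y) := by
  unfold pA pB
  linear_combination (4 * ω ^ 6 * Y * α * a - 8 * ω ^ 5 * Y * α * a + 4 * ω ^ 5 * Y * a ^ 2 + 2
    * ω ^ 4 * X * Y * a + 4 * ω ^ 4 * X * a * β - 4 * ω ^ 4 * X * a * b - 4 * ω ^ 4 * Y * α ^ 2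
    + 4 * ω ^ 4 * Y * α * a - 8 * ω ^ 4 * Y * a ^ 2 + 8 * ω ^ 4 * α * a * β - 8 * ω ^ 4 * α * a
    * b - 2 * ω ^ 3 * X * Y * α - 6 * ω ^ 3 * X * Y * a + 4 * ω ^ 3 * X * α * β - 4 * ω ^ 3 * X
    * α * b - 4 * ω ^ 3 * X * a * β + 4 * ω ^ 3 * X * a * b + 8 * ω ^ 3 * Y * α ^ 2 + 2 * ω ^ 3
    * Y * a ^ 2 - 8 * ω ^ 3 * α * a * β + 8 * ω ^ 3 * α * a * b + 4 * ω ^ 3 * a ^ 2 * β - 4 * ω
    ^ 3 * a ^ 2 * b - 2 * ω ^ 2 * X ^ 2 * Y + 4 * ω ^ 2 * X ^ 2 * β - 4 * ω ^ 2 * X ^ 2 * b - 2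
    * ω ^ 2 * X * Y * α + 2 * ω ^ 2 * X * Y * a - 4 * ω ^ 2 * X * α * β + 4 * ω ^ 2 * X * α * b
    + 4 * ω ^ 2 * X * a * β - 4 * ω ^ 2 * X * a * b - 4 * ω ^ 2 * Y * α ^ 2 + 2 * ω ^ 2 * Y * α
    * a + 6 * ω ^ 2 * Y * a ^ 2 - 8 * ω ^ 2 * α ^ 2 * β + 8 * ω ^ 2 * α ^ 2 * b - 4 * ω ^ 2 * α
    * a * β + 4 * ω ^ 2 * α * a * b - 4 * ω ^ 2 * a ^ 2 * β + 4 * ω ^ 2 * a ^ 2 * b + 2 * ω * X
    ^ 2 * Y - 4 * ω * X ^ 2 * β + 4 * ω * X ^ 2 * b + 6 * ω * X * Y * α + 2 * ω * X * Y * a - 4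
    * ω * X * α * β + 4 * ω * X * α * b - 4 * ω * X * a * β + 4 * ω * X * a * b - 2 * ω * Y * α
    * a - 4 * ω * Y * a ^ 2 + 8 * ω * α ^ 2 * β - 8 * ω * α ^ 2 * b + 4 * ω * α * a * β - 4 * ω
    * α * a * b - 2 * X * Y * α + 4 * X * α * β - 4 * X * α * b) * hω

lemma hex_G (hω : ω ^ 2 + ω + 1 = 0) (Y β b : F) :
    (2 * (β - b) + (ω - ω ^ 2) * Y) * (2 * (β - b) - (ω - ω ^ 2) * Y) =
      4 * (β - b) ^ 2 + 3 * Y ^ 2 := by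
  linear_combination (-ω ^ 2 * Y ^ 2 + 3 * ω * Y ^ 2 - 3 * Y ^ 2) * hω

/-- The two points of the hexagon on a line. -/
lemma pure_hex [CharZero F] (hω : ω ^ 2 + ω + 1 = 0) {X Y α a β b : F} (hJ : PJ X Y α a β b)
    (h0 : X + α + a ≠ 0) (h1 : X + ω * α + ω ^ 2 * a ≠ 0) (h2 : X + ω ^ 2 * α + ω * a ≠ 0)
    {x₁ x₂ x₁' x₂' : F} (e1 : x₁ = pA X Y α a β b / pD X α a)
    (e2 : x₂ = pB X Y α a β b / pD X α a)
    (e1' : x₁' = pA (ω ^ 2 * X) (-Y) α (ω * a) β b / pD (ω ^ 2 * X) α (ω * a))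
    (e2' : x₂' = pB (ω ^ 2 * X) (-Y) α (ω * a) β b / pD (ω ^ 2 * X) α (ω * a)) :
    x₁ - ω * x₂ = x₁' - ω ^ 2 * x₂' ∧ x₁ - ω * x₂ ≠ 0 ∧
      (x₁ - ω * x₂) * (x₁ + ω * x₂ + x₁' + ω ^ 2 * x₂') = 2 * (α - ω ^ 2 * a) := by
  have hω0 : ω ≠ 0 := by
    rintro rfl
    norm_num at hω
  have hω3 : ω ^ 3 = 1 := by linear_combination (ω - 1) * hω
  obtain ⟨G, hG⟩ : ∃ G, G = 2 * (β - b) + (ω - ω ^ 2) * Y := ⟨_, rfl⟩
  obtain ⟨G', hG'⟩ : ∃ G', G' = 2 * (β - b) - (ω - ω ^ 2) * Y := ⟨_, rfl⟩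
  obtain ⟨p0, hp0⟩ : ∃ p0, p0 = X + α + a := ⟨_, rfl⟩
  obtain ⟨p1, hp1⟩ : ∃ p1, p1 = X + ω * α + ω ^ 2 * a := ⟨_, rfl⟩
  obtain ⟨p2, hp2⟩ : ∃ p2, p2 = X + ω ^ 2 * α + ω * a := ⟨_, rfl⟩
  have f1 := hex_D hω X α a
  have f1' := hex_D' hω X α a
  have f2 := hex_AB hω X Y α a β b
  have f2' := hex_AB' hω X Y α a β b
  have f3 := hex_S hω X Y α a β b
  have f4 := hex_G hω Y β b
  rw [← hG, ← hG'] at f4
  rw [← hp0] at h0 f1' f2' f3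
  rw [← hp1] at h1 f1 f2 f3
  rw [← hp2] at h2 f1 f1' f3
  rw [← hG] at f2 f2'
  rw [← hG'] at f3
  have f5 : G * G' = 4 * p0 * p1 * p2 := by
    rw [f4]
    have e : X + α + a = p0 := hp0.symm
    unfold PJ at hJ
    unfold pD at f1
    rw [f1, e] at hJ
    linear_combination hJ
  have hGG : G * G' ≠ 0 := by
    rw [f5]
    exact mul_ne_zero (mul_ne_zero (mul_ne_zero (by norm_num) h0) h1) h2
  have g1 : x₁ - ω * x₂ = ω ^ 2 * G / (2 * p2) := by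
    have : x₁ - ω * x₂ = (pA X Y α a β b - ω * pB X Y α a β b) / pD X α a := by
      rw [e1, e2]; ring
    rw [this, f2, f1]
    field_simp
    ring
  have g1' : x₁' - ω ^ 2 * x₂' = ω ^ 2 * G / (2 * p2) := by
    have : x₁' - ω ^ 2 * x₂' = (pA (ω ^ 2 * X) (-Y) α (ω * a) β b -
        ω ^ 2 * pB (ω ^ 2 * X) (-Y) α (ω * a) β b) / pD (ω ^ 2 * X) α (ω * a) := by
      rw [e1', e2']; ring
    rw [this, f2', f1']
    field_simp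
    linear_combination -4 * G * hω3
  have g2 : x₁ + ω * x₂ + x₁' + ω ^ 2 * x₂' = ω * (α - ω ^ 2 * a) * G' / (p0 * p1) := by
    have : x₁ + ω * x₂ + x₁' + ω ^ 2 * x₂' =
        (p0 * ω * (pA X Y α a β b + ω * pB X Y α a β b) +
          p1 * (pA (ω ^ 2 * X) (-Y) α (ω * a) β b +
            ω ^ 2 * pB (ω ^ 2 * X) (-Y) α (ω * a) β b)) / (4 * ω * p0 * p1 * p2) := by
      rw [e1, e2, e1', e2', f1, f1']
      field_simp
      ring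
    rw [this, f3]
    field_simp
  refine ⟨by rw [g1, g1'], ?_, ?_⟩
  · rw [g1]
    exact div_ne_zero (mul_ne_zero (pow_ne_zero 2 hω0) (left_ne_zero_of_mul hGG))
      (mul_ne_zero two_ne_zero h2)
  · rw [g1, g2]
    have : ω ^ 2 * G / (2 * p2) * (ω * (α - ω ^ 2 * a) * G' / (p0 * p1)) =
        ω ^ 3 * (α - ω ^ 2 * a) * (G * G') / (2 * p0 * p1 * p2) := by
      field_simp
    rw [this, f5, hω3]
    field_simp
    ring

end pure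

variable {k : Type u} [Field k] [IsAlgClosed k] [CharZero k] {W : Wei k} (D : Core W)
  {ψ : (W.surface.prod W.surface).Pt → k}

lemma exists_omega (k : Type u) [Field k] [IsAlgClosed k] [CharZero k] :
    ∃ ω : k, ω ^ 2 + ω + 1 = 0 := by
  obtain ⟨s, hs⟩ := IsAlgClosed.exists_pow_nat_eq (-3 : k) (n := 2) two_pos
  refine ⟨(-1 + s) / 2, ?_⟩
  field_simp
  linear_combination hs

lemma Phi_rot {ζ t s r x₁ x₂ y : k} (hζ : ζ ^ 3 = 1) :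
    Phi D ψ t s (ζ * r) x₁ (ζ ^ 2 * x₂) y = Phi D ψ t s r x₁ x₂ y := by
  have h0 : ζ ≠ 0 := by
    rintro rfl
    norm_num at hζ
  unfold Phi
  have e1 : ζ ^ 2 * x₂ / (ζ * r) ^ 2 = x₂ / r ^ 2 := by
    rw [mul_pow, mul_div_mul_left _ _ (pow_ne_zero 2 h0)]
  have e2 : (ζ * r) ^ 3 = r ^ 3 := by
    rw [mul_pow, hζ, one_mul]
  rw [e1, e2]

lemma jac_neg {t s U ξ w : k} (h : Jac D t s U ξ w) : Jac D t s U ξ (-w) := by
  unfold Jac at *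
  rw [neg_sq]
  exact h

/-- The relation of the hexagon. -/
lemma HH_hex (h : Alt W ψ) {ω t s r ξ w : k} (hω : ω ^ 2 + ω + 1 = 0) (hr : r ≠ 0)
    (hJ : Jac D t s (r ^ 6) ξ w) (hn : nn D t s (r ^ 6) ξ ≠ 0) :
    HH D ψ t s r ξ w + HH D ψ t s (ω * r) ξ (-w) = 0 := by
  have hω3 : ω ^ 3 = 1 := by linear_combination (ω - 1) * hω
  have hω0 : ω ≠ 0 := by
    rintro rfl
    norm_num at hω
  have hr' : ω * r ≠ 0 := mul_ne_zero hω0 hr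
  have h6 : (ω * r) ^ 6 = r ^ 6 := by
    linear_combination r ^ 6 * (ω ^ 3 + 1) * hω3
  have hJ' : Jac D t s ((ω * r) ^ 6) ξ (-w) := by
    rw [h6]
    exact jac_neg D hJ
  have hn' : nn D t s ((ω * r) ^ 6) ξ ≠ 0 := by rwa [h6]
  have hd := den_ne D hn
  have hd' := den_ne D hn'
  have c1 := pt_on D hr hJ hd
  have c1' := pt_on D hr' hJ' hd'
  -- the factors
  have hJp := (jac_iff D t s r ξ w).mp hJ
  have hnn := nn_eq D t s r ξ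
  have hdD := den_eq D t s r ξ
  rw [hex_D hω] at hdD
  have hnn0 : (r ^ 2 * ξ + Polynomial.aeval t D.al + r ^ 4 * Polynomial.aeval s D.al) *
      den D t s r ξ ≠ 0 := by
    rw [← hnn]
    exact mul_ne_zero (by norm_num) hn
  have q0 := left_ne_zero_of_mul hnn0
  rw [hdD] at hd
  have q2 := right_ne_zero_of_mul hd
  have q1 := right_ne_zero_of_mul (left_ne_zero_of_mul hd)
  obtain ⟨k1, k2, k3⟩ := pure_hex hω hJp q0 q1 q2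
    (x₁ := xa D t s r ξ w) (x₂ := xb D t s r ξ w)
    (x₁' := xa D t s (ω * r) ξ (-w)) (x₂' := xb D t s (ω * r) ξ (-w))
    (by rw [xa_eq, den_eq]) (by rw [xb_eq, den_eq])
    (by
      rw [xa_eq, den_eq]
      congr 2
      · ring
      · linear_combination (-(r ^ 3 * w)) * hω3
      · linear_combination (ω * r ^ 4 * Polynomial.aeval s D.al) * hω3
      · linear_combination (ω ^ 3 + 1) * (r ^ 6 * Polynomial.aeval s D.be) * hω3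
      · ring
      · linear_combination (ω * r ^ 4 * Polynomial.aeval s D.al) * hω3)
    (by
      rw [xb_eq, den_eq]
      congr 2
      · ring
      · linear_combination (-(r ^ 3 * w)) * hω3
      · linear_combination (ω * r ^ 4 * Polynomial.aeval s D.al) * hω3
      · linear_combination (ω ^ 3 + 1) * (r ^ 6 * Polynomial.aeval s D.be) * hω3
      · ring
      · linear_combination (ω * r ^ 4 * Polynomial.aeval s D.al) * hω3)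
  unfold HH
  obtain ⟨x₁, hx₁⟩ : ∃ x, x = xa D t s r ξ w := ⟨_, rfl⟩
  obtain ⟨x₂, hx₂⟩ : ∃ x, x = xb D t s r ξ w := ⟨_, rfl⟩
  obtain ⟨x₁', hx₁'⟩ : ∃ x, x = xa D t s (ω * r) ξ (-w) := ⟨_, rfl⟩
  obtain ⟨x₂', hx₂'⟩ : ∃ x, x = xb D t s (ω * r) ξ (-w) := ⟨_, rfl⟩
  rw [← hx₁, ← hx₂, ← hx₁', ← hx₂']
  rw [← hx₁, ← hx₂, ← hx₁', ← hx₂'] at k1 k3
  rw [← hx₁, ← hx₂] at k2 c1
  rw [← hx₁', ← hx₂'] at c1'
  have hR : ω * (ω * r) ≠ 0 := mul_ne_zero hω0 hr'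
  have z1 : (ω ^ 2) ^ 3 = 1 := by linear_combination (ω ^ 3 + 1) * hω3
  rw [← Phi_rot D (ζ := ω ^ 2) z1 (r := r), ← Phi_rot D (ζ := ω) hω3 (r := ω * r)]
  have a1 : ω ^ 2 * r = ω * (ω * r) := by ring
  have a2 : (ω ^ 2) ^ 2 * x₂ = ω * x₂ := by linear_combination ω * x₂ * hω3
  rw [a1, a2]
  have a3 : ω * x₂ / (ω * (ω * r)) ^ 2 = x₂ / r ^ 2 := by
    have : (ω * (ω * r)) ^ 2 = ω * r ^ 2 := by linear_combination ω * r ^ 2 * hω3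
    rw [this, mul_div_mul_left _ _ hω0]
  have a4 : ω ^ 2 * x₂' / (ω * (ω * r)) ^ 2 = x₂' / (ω * r) ^ 2 := by
    rw [mul_pow ω (ω * r), mul_div_mul_left _ _ (pow_ne_zero 2 hω0)]
  have a5 : (ω * (ω * r)) ^ 6 = r ^ 6 := by
    linear_combination (ω ^ 9 + ω ^ 6 + ω ^ 3 + 1) * r ^ 6 * hω3
  refine line D h hR (sqt_sq _) ?_ (sqt_sq _) ?_ k1 k2 ?_
  · rw [a3, a5]
    exact c1
  · rw [a4, a5, ← h6]
    exact c1'
  · rw [k3]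
    linear_combination 2 * (ω ^ 5 + ω ^ 2) * r ^ 4 * Polynomial.aeval s D.al * hω3

theorem HH_neg (h : Alt W ψ) {t s r ξ w : k} (hr : r ≠ 0) (hJ : Jac D t s (r ^ 6) ξ w)
    (hn : nn D t s (r ^ 6) ξ ≠ 0) : HH D ψ t s r ξ (-w) = -HH D ψ t s r ξ w := by
  obtain ⟨ω, hω⟩ := exists_omega k
  have hω3 : ω ^ 3 = 1 := by linear_combination (ω - 1) * hω
  have hω0 : ω ≠ 0 := by
    rintro rfl
    norm_num at hω
  have hr1 : ω * r ≠ 0 := mul_ne_zero hω0 hr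
  have hr2 : ω * (ω * r) ≠ 0 := mul_ne_zero hω0 hr1
  have h6 : (ω * r) ^ 6 = r ^ 6 := by
    linear_combination r ^ 6 * (ω ^ 3 + 1) * hω3
  have h6' : (ω * (ω * r)) ^ 6 = r ^ 6 := by
    linear_combination (ω ^ 9 + ω ^ 6 + ω ^ 3 + 1) * r ^ 6 * hω3
  have e1 := HH_hex D h hω hr hJ hn
  have e2 := HH_hex D h hω hr1 (w := -w) (ξ := ξ) (t := t) (s := s)
    (by rw [h6]; exact jac_neg D hJ) (by rwa [h6])
  have e3 := HH_hex D h hω hr2 (w := w) (ξ := ξ) (t := t) (s := s)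
    (by rw [h6']; exact hJ) (by rwa [h6'])
  rw [neg_neg] at e2
  have e4 : ω * (ω * (ω * r)) = r := by linear_combination r * hω3
  rw [e4] at e3
  linear_combination e3 - e2 + e1

lemma HH_omega (h : Alt W ψ) {ω t s r ξ w : k} (hω : ω ^ 2 + ω + 1 = 0) (hr : r ≠ 0)
    (hJ : Jac D t s (r ^ 6) ξ w) (hn : nn D t s (r ^ 6) ξ ≠ 0) :
    HH D ψ t s (ω * r) ξ w = HH D ψ t s r ξ w := by
  have e1 := HH_hex D h hω hr (jac_neg D hJ) hn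
  have e2 := HH_neg D h hr hJ hn
  rw [neg_neg] at e1
  linear_combination e1 - e2

lemma HH_minus (h : Alt W ψ) {t s r ξ w : k} (hr : r ≠ 0) (hJ : Jac D t s (r ^ 6) ξ w)
    (hn : nn D t s (r ^ 6) ξ ≠ 0) : HH D ψ t s (-r) ξ w = HH D ψ t s r ξ w := by
  have e0 : den D t s (-r) ξ = den D t s r ξ := by
    unfold den
    ring
  have e1 : xa D t s (-r) ξ w = xa D t s r ξ (-w) := by
    rw [xa_eq, xa_eq, e0]
    congr 2 <;> ring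
  have e2 : xb D t s (-r) ξ w = xb D t s r ξ (-w) := by
    rw [xb_eq, xb_eq, e0]
    congr 2 <;> ring
  have e3 : HH D ψ t s (-r) ξ w = -HH D ψ t s r ξ (-w) := by
    unfold HH Phi
    rw [e1, e2]
    have c := pt_on D hr (jac_neg D hJ) (den_ne D hn)
    obtain ⟨y, hy⟩ : ∃ y, y = sqt (cub D t (xa D t s r ξ (-w))) := ⟨_, rfl⟩
    have hy2 : y ^ 2 = cub D t (xa D t s r ξ (-w)) := by rw [hy, sqt_sq]
    rw [← hy]
    have a1 : (-r) ^ 2 = r ^ 2 := by ring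
    have a2 : y / (-r) ^ 3 = -(y / r ^ 3) := by
      have : (-r) ^ 3 = -r ^ 3 := by ring
      rw [this, div_neg]
    rw [a1, a2]
    have hc : (y / r ^ 3) ^ 2 = cub D s (xb D t s r ξ (-w) / r ^ 2) := by
      rw [div_pow, hy2, c]
      field_simp
    rw [← neg_ptt D hc, h.odd']
  rw [e3, HH_neg D h hr hJ hn, neg_neg]

/-- `HH` depends only on `r ^ 6`. -/
theorem HH_six (h : Alt W ψ) {t s r r' ξ w : k} (hr : r ≠ 0) (hJ : Jac D t s (r ^ 6) ξ w)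
    (hn : nn D t s (r ^ 6) ξ ≠ 0) (h6 : r' ^ 6 = r ^ 6) : HH D ψ t s r' ξ w = HH D ψ t s r ξ w := by
  obtain ⟨ω, hω⟩ := exists_omega k
  have hω3 : ω ^ 3 = 1 := by linear_combination (ω - 1) * hω
  have hω0 : ω ≠ 0 := by
    rintro rfl
    norm_num at hω
  have key : ∀ q : k, q ≠ 0 → q ^ 6 = r ^ 6 → r' ^ 2 = q ^ 2 →
      HH D ψ t s r' ξ w = HH D ψ t s q ξ w := by
    intro q hq hq6 h2
    rcases sq_eq_sq_iff_eq_or_eq_neg.mp h2 with h3 | h3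
    · rw [h3]
    · rw [h3]
      exact HH_minus D h hq (by rwa [hq6]) (by rwa [hq6])
  have h1 : ω * r ≠ 0 := mul_ne_zero hω0 hr
  have h2 : ω * (ω * r) ≠ 0 := mul_ne_zero hω0 h1
  have hr6 : (ω * r) ^ 6 = r ^ 6 := by
    linear_combination r ^ 6 * (ω ^ 3 + 1) * hω3
  have hr6' : (ω * (ω * r)) ^ 6 = r ^ 6 := by
    linear_combination (ω ^ 9 + ω ^ 6 + ω ^ 3 + 1) * r ^ 6 * hω3
  have hprod : (r' ^ 2 - r ^ 2) * ((r' ^ 2 - (ω * r) ^ 2) * (r' ^ 2 - (ω * (ω * r)) ^ 2)) = 0 := by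
    linear_combination h6 + (-r' ^ 4 * r ^ 2 * (ω ^ 2 - ω + 1) + r' ^ 2 * r ^ 4 * (ω ^ 4 - ω ^
      3 + ω ^ 2)) * hω - (ω ^ 3 + 1) * r ^ 6 * hω3
  rcases mul_eq_zero.mp hprod with h3 | h3
  · exact key r hr rfl (sub_eq_zero.mp h3)
  rcases mul_eq_zero.mp h3 with h3 | h3
  · rw [key _ h1 hr6 (sub_eq_zero.mp h3)]
    exact HH_omega D h hω hr hJ hn
  · rw [key _ h2 hr6' (sub_eq_zero.mp h3), HH_omega D h hω h1 (by rwa [hr6]) (by rwa [hr6])]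
    exact HH_omega D h hω hr hJ hn

theorem hh_eq (h : Alt W ψ) {t s r ξ w : k} (hr : r ≠ 0) (hJ : Jac D t s (r ^ 6) ξ w)
    (hn : nn D t s (r ^ 6) ξ ≠ 0) : hh D ψ t s (r ^ 6) ξ w = HH D ψ t s r ξ w :=
  HH_six D h hr hJ hn (rt6_pow _)

theorem hh_neg (h : Alt W ψ) {t s U ξ w : k} (hU : U ≠ 0) (hJ : Jac D t s U ξ w)
    (hn : nn D t s U ξ ≠ 0) : hh D ψ t s U ξ (-w) = -hh D ψ t s U ξ w := by
  have hr : rt6 U ≠ 0 := by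
    intro h0
    have := rt6_pow U
    rw [h0] at this
    apply hU
    rw [← this]
    norm_num
  exact HH_neg D h hr (by rwa [rt6_pow]) (by rwa [rt6_pow])

end Pool.Agent.Helper51.VK
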