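import Mathlib
import Pool.Agent.Helper51.VK.Hex

/-!
# Block VK-VAL: values of the point of the Inose pencil at a place; SW

`hh_val`: at a place where `T, S, R, X, w` have the values `t, s, r, ξ, ω`, `r ≠ 0`, and
`nn (t, s, r ^ 6, ξ) ≠ 0`, the denominator `den` is invertible, `xa, xb, y` are regular, and the
value is `hh (t, s, r ^ 6, ξ, ω)` (by `eval_ptt`, `Phi_sign`, `hh_eq`).

`hh_swap`: `hh (s, t, U⁻¹, ξ, w) = - hh (t, s, U, ξ, w)`, by `xa_swap`, `jac_swap`, `nn_swap`.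
-/

set_option linter.unusedSectionVars false

namespace Pool.Agent.Helper51.VK

open VC VF Function
open Pool.Agent.Helper51.EW

universe u

variable {k : Type u} [Field k] [IsAlgClosed k] [CharZero k] {W : Wei k} (D : Core W)
  {ψ : (W.surface.prod W.surface).Pt → k} {K : Type u} [Field K] [Algebra k K]

lemma isRes_den {v : Place k K} {T S R X : K} {t s r ξ : k} (hT : IsRes v T t) (hS : IsRes v S s)
    (hR : IsRes v R r) (hX : IsRes v X ξ) : IsRes v (den D T S R X) (den D t s r ξ) :=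
  ((((isRes_two.mul (hR.pow 2)).mul hX).sub
    ((isRes_aeval' hT _).add ((hR.pow 4).mul (isRes_aeval' hS _)))).pow 2).add
    (isRes_three.mul (((isRes_aeval' hT _).sub ((hR.pow 4).mul (isRes_aeval' hS _))).pow 2))

lemma isRes_jac {v : Place k K} {T S U X w : K} {t s U₀ ξ ω : k} (hJ : Jac D T S U X w)
    (hT : IsRes v T t) (hS : IsRes v S s) (hU : IsRes v U U₀) (hX : IsRes v X ξ)
    (hw : IsRes v w ω) : Jac D t s U₀ ξ ω := by
  have h4 : IsRes v (4 : K) (4 : k) := by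
    have := isRes_const (v := v) (4 : k)
    rwa [map_ofNat] at this
  have e1 := (isRes_three.mul hU).mul (hw.pow 2)
  have e2 := h4.mul (((hU.mul (((hX.pow 3).sub ((isRes_three.mul
    ((isRes_aeval' hT D.al).mul (isRes_aeval' hS D.al))).mul hX)).add
    (isRes_two.mul ((isRes_aeval' hT D.be).mul (isRes_aeval' hS D.be))))).sub
      (isRes_del D hT)).sub ((hU.pow 2).mul (isRes_del D hS)))
  rw [← hJ] at e2
  exact e1.unique e2

/-- Block VK-VAL. -/
theorem hh_val (h : Alt W ψ) (hK : IsFunctionField k K) (v : Place k K) {T S R X w y : K}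
    (hR : R ≠ 0) (hJ : Jac D T S (R ^ 6) X w) (hy : y ^ 2 = cub D T (xa D T S R X w))
    {t s r ξ ω : k} (hT : IsRes v T t) (hS : IsRes v S s) (hRr : IsRes v R r) (hr : r ≠ 0)
    (hX : IsRes v X ξ) (hw : IsRes v w ω) (hn : nn D t s (r ^ 6) ξ ≠ 0) :
    ψ (W.surface.eval hK (ptt D T (xa D T S R X w) y) v,
      W.surface.eval hK (ptt D S (xb D T S R X w / R ^ 2) (y / R ^ 3)) v) =
      hh D ψ t s (r ^ 6) ξ ω := by
  have hC : CharZero K := charZero_of_injective_algebraMap (algebraMap k K).injective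
  have hd := den_ne D hn
  have hden := isRes_den D hT hS hRr hX
  have hdK : den D T S R X ≠ 0 := hden.ne_zero hd
  have hJ' : Jac D t s (r ^ 6) ξ ω := isRes_jac D hJ hT hS (hRr.pow 6) hX hw
  have hon := pt_on D hR hJ hdK
  have hon' := pt_on D hr hJ' hd
  have hxa : IsRes v (xa D T S R X w) (xa D t s r ξ ω) := by
    unfold xa
    rw [div_eq_mul_inv, div_eq_mul_inv]
    refine IsRes.mul ?_ (hden.inv hK hd)
    exact (((hRr.pow 3).mul hw).mul ((((isRes_two.mul (hRr.pow 2)).mul hX).sub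
      ((isRes_aeval' hT _).add ((hRr.pow 4).mul (isRes_aeval' hS _)))).add
      (isRes_three.mul ((isRes_aeval' hT _).sub ((hRr.pow 4).mul (isRes_aeval' hS _)))))).add
      ((isRes_two.mul ((isRes_aeval' hT _).sub ((hRr.pow 6).mul (isRes_aeval' hS _)))).mul
        (((isRes_aeval' hT _).sub ((hRr.pow 4).mul (isRes_aeval' hS _))).sub
          (((isRes_two.mul (hRr.pow 2)).mul hX).sub
            ((isRes_aeval' hT _).add ((hRr.pow 4).mul (isRes_aeval' hS _))))))
  have hxb : IsRes v (xb D T S R X w) (xb D t s r ξ ω) := by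
    unfold xb
    rw [div_eq_mul_inv, div_eq_mul_inv]
    refine IsRes.mul ?_ (hden.inv hK hd)
    exact (((hRr.pow 3).mul hw).mul ((((isRes_two.mul (hRr.pow 2)).mul hX).sub
      ((isRes_aeval' hT _).add ((hRr.pow 4).mul (isRes_aeval' hS _)))).sub
      (isRes_three.mul ((isRes_aeval' hT _).sub ((hRr.pow 4).mul (isRes_aeval' hS _)))))).add
      ((isRes_two.mul ((isRes_aeval' hT _).sub ((hRr.pow 6).mul (isRes_aeval' hS _)))).mul
        (((isRes_aeval' hT _).sub ((hRr.pow 4).mul (isRes_aeval' hS _))).add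
          (((isRes_two.mul (hRr.pow 2)).mul hX).sub
            ((isRes_aeval' hT _).add ((hRr.pow 4).mul (isRes_aeval' hS _))))))
  obtain ⟨y0, hy0, hy0'⟩ := exists_res_of_pow hK two_ne_zero (x := y) (v := v)
    (c := cub D t (xa D t s r ξ ω)) (by rw [hy]; exact isRes_cub D hT hxa)
  have hr3 := pow_ne_zero 3 hr
  have hr2 := pow_ne_zero 2 hr
  have hy2 : (y / R ^ 3) ^ 2 = cub D S (xb D T S R X w / R ^ 2) := by
    rw [div_pow, hy, hon]
    field_simp
  rw [eval_ptt D hK v hy hT hxa hy0, eval_ptt D hK v hy2 hS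
    (c := xb D t s r ξ ω / r ^ 2) (d := y0 / r ^ 3) (by
      rw [div_eq_mul_inv, div_eq_mul_inv]
      exact hxb.mul ((hRr.pow 2).inv hK hr2)) (by
      rw [div_eq_mul_inv, div_eq_mul_inv]
      exact hy0.mul ((hRr.pow 3).inv hK hr3)), hh_eq D h hr hJ' hn]
  exact Phi_sign D h hr (sqt_sq _) hon' hy0'

/-- Block VK-SW. -/
theorem hh_swap (h : Alt W ψ) {t s U ξ w : k} (hU : U ≠ 0) (hJ : Jac D t s U ξ w)
    (hn : nn D t s U ξ ≠ 0) : hh D ψ s t U⁻¹ ξ w = -hh D ψ t s U ξ w := by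
  obtain ⟨r, hr6⟩ := IsAlgClosed.exists_pow_nat_eq U (n := 6) (by norm_num)
  have hr : r ≠ 0 := by
    rintro rfl
    apply hU
    rw [← hr6]
    norm_num
  rw [← hr6] at hU hJ hn ⊢
  have hr' : r⁻¹ ≠ 0 := inv_ne_zero hr
  have hJ' := jac_swap D hU hJ
  have hn' : nn D s t (r ^ 6)⁻¹ ξ ≠ 0 := by
    rw [nn_swap D hU]
    exact div_ne_zero hn (pow_ne_zero 2 hU)
  rw [← inv_pow] at hJ' hn' ⊢
  rw [hh_eq D h hr hJ hn, hh_eq D h hr' hJ' hn']
  have c1 := pt_on D hr hJ (den_ne D hn)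
  have c2 := pt_on D hr' hJ' (den_ne D hn')
  obtain ⟨e1, e2⟩ := xa_swap D (T := t) (S := s) (ξ := ξ) (w := w) hr
  unfold HH
  rw [← Phi_sign D h hr' (sqt_sq _) c2
    (y' := sqt (cub D t (xa D t s r ξ w)) / r ^ 3) (by
      rw [div_pow, sqt_sq, c1, e1]
      field_simp)]
  unfold Phi
  rw [← h.alt]
  congr 2
  · rw [e1]
  · rw [e2]
    congr 1
    · field_simp
    · field_simp

end Pool.Agent.Helper51.VK
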