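import Mathlib
import Pool.Agent.Helper51.EW.Final
import Pool.Agent.Helper51.VK.Defs

/-!
# The assembly: from functions on pairs of points to cycles on `S ^ n`
-/

set_option linter.unusedSectionVars false

namespace Pool.Agent.Helper51.VK

open VC VF Function
open Pool.Agent.Helper51.EW
open Pool.Agent.Helper94.EW (even_const)

universe u

variable {k : Type u} [Field k] [IsAlgClosed k] [CharZero k] {W : Wei k}

/-- An odd alternating function of two points. -/
lemma Odd.toAlt {Ψ : (W.surface.pow 2).Pt → k} (h : Odd W 2 Ψ) :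
    Alt W (fun z => Ψ ![z.1, z.2]) := by
  refine ⟨?_, ?_, ?_⟩
  · refine h.kills.comp (r := fun z : (W.surface.prod W.surface).Pt =>
      (![z.1, z.2] : (W.surface.pow 2).Pt)) ?_
    intro K _ _ hK c
    refine ⟨![c.1, c.2], fun v => ?_⟩
    funext i
    fin_cases i <;> rfl
  · intro p q
    have h1 := h.odd ![p, q] 0
    have e : update (![p, q] : Fin 2 → WPt W k) 0 (neg (![p, q] 0 : WPt W k)) = ![neg p, q] := by
      funext i
      fin_cases i <;> rfl
    rw [e] at h1
    exact h1
  · intro p q
    have h1 := h.alt 0 1 (by decide) ![p, q]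
    have e : (fun l => (![p, q] : Fin 2 → WPt W k) (Equiv.swap 0 1 l)) = ![q, p] := by
      funext i
      fin_cases i
      · change (![p, q] : Fin 2 → WPt W k) (Equiv.swap 0 1 0) = q
        rw [Equiv.swap_apply_left]
        rfl
      · change (![p, q] : Fin 2 → WPt W k) (Equiv.swap 0 1 1) = p
        rw [Equiv.swap_apply_right]
        rfl
    rw [e] at h1
    exact h1

/-- Odd alternating functions of at least two points vanish. -/
theorem odd_zero (hcore : ∀ ψ : (W.surface.prod W.surface).Pt → k, Alt W ψ →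
      ∀ p q, ψ (p, q) = 0) {n : ℕ} (hn : 2 ≤ n) {Ψ : (W.surface.pow n).Pt → k} (h : Odd W n Ψ)
    (p : (W.surface.pow n).Pt) : Ψ p = 0 := by
  have h1 := hcore _ (Odd.toAlt (h.restrict hn p)) (p (Fin.castLE hn 0)) (p (Fin.castLE hn 1))
  rw [← h1]
  beta_reduce
  congr 1
  funext i
  unfold EW.extend
  by_cases hi : i.val < 2
  · rw [dif_pos hi]
    obtain ⟨i, hi'⟩ := i
    have : i = 0 ∨ i = 1 := by
      have : i < 2 := hi
      omega
    rcases this with rfl | rfl
    · rfl
    · rfl
  · rw [dif_neg hi]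

/-- The assembly. -/
theorem voisin_of (hcore : ∀ ψ : (W.surface.prod W.surface).Pt → k, Alt W ψ →
      ∀ p q, ψ (p, q) = 0) {n : ℕ} (hn : 2 ≤ n)
    (a : Fin n → W.surface.Cycles) (ha : ∀ i, (a i).sum (fun _ c => c) = 0) :
    ∃ M : ℕ, 0 < M ∧ M • ∑ σ : Equiv.Perm (Fin n), ((Equiv.Perm.sign σ : ℤˣ) : ℤ) •
      extProd (fun i => a (σ i)) ∈ (W.surface.pow n).Rat := by
  refine VH.assembly_deg (negAct W) n a ha fun E hE χ Ψ h => ?_
  have hact : ∀ p : W.surface.Pt, (negAct W).act 1 p = neg p := fun p => rfl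
  have hconst : ∀ (K : Type u) [Field K] [Algebra k K] (hK : IsFunctionField k K)
      (p : W.surface.Pt), ∃ c : W.surface.Mor K, ∀ v, W.surface.eval hK c v = p :=
    fun K _ _ hK q => exists_const K hK q
  by_cases h0 : ∃ i, χ i = 0
  · right
    obtain ⟨i, hi⟩ := h0
    refine ⟨i, fun p x y => ?_⟩
    obtain ⟨h1, h2⟩ := h.one hconst p i
    refine even_const h1 (fun q => ?_) x y
    have := h2 1 q
    rw [hi, zero_mul, AddChar.map_zero_eq_one, one_mul, hact] at this
    exact this
  · left
    push Not at h0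
    have hχ : ∀ i, χ i = 1 := by
      intro i
      have h1 := h0 i
      have : ∀ z : ZMod 2, z ≠ 0 → z = 1 := by decide
      exact this _ h1
    have hE1 : E 1 = -1 := by
      have h1 : E 1 * E 1 = 1 := by
        rw [← AddChar.map_add_eq_mul]
        have : (1 : ZMod 2) + 1 = 0 := by decide
        rw [this, AddChar.map_zero_eq_one]
      rcases mul_self_eq_one_iff.mp h1 with h2 | h2
      · exact absurd (hE.1 _ h2) (by decide)
      · exact h2
    intro p
    refine odd_zero hcore hn ⟨h.kills, fun p i => ?_, fun i j hij p => ?_⟩ p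
    · have := h.equi p i 1
      rw [hχ i, one_mul, hE1, hact] at this
      rw [this]; ring
    · exact h.alt i j hij (by rw [hχ i, hχ j]) p

end Pool.Agent.Helper51.VK
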