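import Mathlib
import Pool.Agent.Helper51.VK.Defs
import Pool.Agent.Helper83.EW.Red

/-!
# Existence of adapted coordinates
-/

set_option linter.unusedSectionVars false

namespace Pool.Agent.Helper51.VK

open VC VF Function
open Pool.Agent.Helper51.EW
open Pool.Agent.Helper83.EW (deh aeval_deh natDegree_deh_le deh_ne_zero exists_zero exists_bas)

universe u

variable {k : Type u} [Field k] [IsAlgClosed k] [CharZero k]

/-- Splitting a polynomial into two factors of bounded degrees. -/
lemma exists_split (n : ℕ) : ∀ (m : ℕ) (F : Polynomial k), F ≠ 0 → F.natDegree ≤ m + n →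
    ∃ P Q : Polynomial k, F = P * Q ∧ P.natDegree ≤ m ∧ Q.natDegree ≤ n := by
  intro m
  induction m with
  | zero =>
    intro F _ hF
    exact ⟨1, F, (one_mul F).symm, by simp, by omega⟩
  | succ m ih =>
    intro F hF0 hF
    by_cases h : F.natDegree ≤ n
    · exact ⟨1, F, (one_mul F).symm, by simp, h⟩
    have hd : F.degree ≠ 0 := by
      intro h0
      apply h
      rw [Polynomial.natDegree_eq_of_degree_eq_some (n := 0) (by simpa using h0)]
      omega
    obtain ⟨r, hr⟩ := IsAlgClosed.exists_root F hd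
    obtain ⟨F', hF'⟩ := Polynomial.dvd_iff_isRoot.mpr hr
    have hF'0 : F' ≠ 0 := by
      rintro rfl
      rw [mul_zero] at hF'
      exact hF0 hF'
    have hdeg : F.natDegree = 1 + F'.natDegree := by
      rw [hF', Polynomial.natDegree_mul (Polynomial.X_sub_C_ne_zero r) hF'0,
        Polynomial.natDegree_X_sub_C]
    obtain ⟨P, Q, h1, h2, h3⟩ := ih F' hF'0 (by omega)
    refine ⟨(Polynomial.X - Polynomial.C r) * P, Q, by rw [hF', h1, mul_assoc], ?_, h3⟩
    refine le_trans (Polynomial.natDegree_mul_le) ?_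
    rw [Polynomial.natDegree_X_sub_C]
    omega

theorem exists_core (W : Wei k) (hN : W.N = 2) (hΔ : 4 * W.A ^ 3 + 27 * W.B ^ 2 ≠ 0) :
    Nonempty (Core W) := by
  have hA := W.hA
  have hB := W.hB
  rw [hN] at hA hB
  have hΔh : (4 * W.A ^ 3 + 27 * W.B ^ 2).IsHomogeneous 24 := by
    have e4 : (4 : MvPolynomial (Fin 2) k) = MvPolynomial.C 4 := (map_ofNat _ 4).symm
    have e27 : (27 : MvPolynomial (Fin 2) k) = MvPolynomial.C 27 := (map_ofNat _ 27).symm
    rw [e4, e27]
    refine MvPolynomial.IsHomogeneous.add ?_ ?_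
    · have := (MvPolynomial.isHomogeneous_C (Fin 2) (4 : k)).mul (hA.pow 3)
      rwa [zero_add] at this
    · have := (MvPolynomial.isHomogeneous_C (Fin 2) (27 : k)).mul (hB.pow 2)
      rwa [zero_add] at this
  obtain ⟨r, hr, hr'⟩ := exists_zero (by norm_num : 0 < 24) hΔh
  obtain ⟨E, rfl⟩ := exists_bas hr
  have h3 : (3 : k) ≠ 0 := by norm_num
  set al : Polynomial k := Polynomial.C (-3)⁻¹ * deh E W.A with hal
  set be : Polynomial k := Polynomial.C 2⁻¹ * deh E W.B with hbe
  have hdel : be ^ 2 - al ^ 3 = Polynomial.C 108⁻¹ * deh E (4 * W.A ^ 3 + 27 * W.B ^ 2) := by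
    have e : deh E (4 * W.A ^ 3 + 27 * W.B ^ 2) = Polynomial.C 4 * deh E W.A ^ 3 +
        Polynomial.C 27 * deh E W.B ^ 2 := by
      unfold deh
      rw [map_add, map_mul, map_mul, map_pow, map_pow, map_ofNat, map_ofNat]
      rfl
    have c1 : Polynomial.C ((-3 : k)⁻¹) ^ 3 = -(Polynomial.C (108 : k)⁻¹ * Polynomial.C 4) := by
      rw [← Polynomial.C_pow, ← Polynomial.C_mul, ← Polynomial.C_neg]
      congr 1
      norm_num
    have c2 : Polynomial.C ((2 : k)⁻¹) ^ 2 = Polynomial.C (108 : k)⁻¹ * Polynomial.C 27 := by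
      rw [← Polynomial.C_pow, ← Polynomial.C_mul]
      congr 1
      norm_num
    rw [e, hal, hbe, mul_pow, mul_pow, c1, c2]
    ring
  have h108 : (108 : k)⁻¹ ≠ 0 := inv_ne_zero (by norm_num)
  have hne : be ^ 2 - al ^ 3 ≠ 0 := by
    rw [hdel]
    exact mul_ne_zero (Polynomial.C_ne_zero.mpr h108) (deh_ne_zero E hΔh hΔ)
  have hdeg : (be ^ 2 - al ^ 3).natDegree ≤ 12 + 12 := by
    rw [hdel]
    exact (Polynomial.natDegree_C_mul_le _ _).trans (natDegree_deh_le E hΔh)
  obtain ⟨P, Q, hPQ, hP, hQ⟩ := exists_split 12 12 _ hne hdeg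
  have hPQ0 : P * Q ≠ 0 := by rw [← hPQ]; exact hne
  refine ⟨{ e0 := E.e0
            e1 := E.e1
            det := by rw [E.det]; exact one_ne_zero
            al := al
            be := be
            P := P
            Q := Q
            hA := ?_
            hB := ?_
            hPQ := hPQ
            hP0 := left_ne_zero_of_mul hPQ0
            hQ0 := right_ne_zero_of_mul hPQ0
            dal := (Polynomial.natDegree_C_mul_le _ _).trans (natDegree_deh_le E hA)
            dbe := (Polynomial.natDegree_C_mul_le _ _).trans (natDegree_deh_le E hB)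
            dP := hP
            dQ := hQ
            sing := ?_ }⟩
  · intro K _ _ T
    rw [← aeval_deh, hal, map_mul, Polynomial.aeval_C, ← mul_assoc]
    have : (-3 : K) * algebraMap k K (-3)⁻¹ = 1 := by
      have e : (-3 : K) = algebraMap k K (-3) := by rw [map_neg, map_ofNat]
      rw [e, ← map_mul, mul_inv_cancel₀ (neg_ne_zero.mpr h3), map_one]
    rw [this, one_mul]
  · intro K _ _ T
    rw [← aeval_deh, hbe, map_mul, Polynomial.aeval_C, ← mul_assoc]
    have : (2 : K) * algebraMap k K 2⁻¹ = 1 := by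
      have e : (2 : K) = algebraMap k K 2 := by rw [map_ofNat]
      rw [e, ← map_mul, mul_inv_cancel₀ two_ne_zero, map_one]
    rw [this, one_mul]
  · rw [map_add, map_mul, map_mul, map_pow, map_pow, map_ofNat, map_ofNat] at hr'
    exact hr'

end Pool.Agent.Helper51.VK
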